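import Pool.Agent.helper64.NQ.Spec

/-!
# Project nq, row OMA: the commutator pairing is an alternating bicharacter
-/

set_option autoImplicit false

namespace Pool.Agent.NQ

open Pool.Agent.helper58.DC Pool.Agent.DI Pool.Agent.DR

theorem OMA_grp {M : Type} [CommGroup M] (a b c d e f g h k : M) (h1 : a * b = c * d)
    (h2 : e * f = g * a) (h3 : h * f = c * k) : b * e * k = h * d * g := by
  have h4 : a * f * (b * e * k) = a * f * (h * d * g) := by
    calc a * f * (b * e * k) = (a * b) * (e * f) * k := by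
          simp only [mul_comm, mul_left_comm, mul_assoc]
      _ = (c * d) * (g * a) * k := by rw [h1, h2]
      _ = a * (c * k) * d * g := by simp only [mul_comm, mul_left_comm, mul_assoc]
      _ = a * (h * f) * d * g := by rw [h3]
      _ = a * f * (h * d * g) := by simp only [mul_comm, mul_left_comm, mul_assoc]
  exact mul_left_cancel h4

theorem OMA_fin {M : Type} [CommGroup M] (b e k h d g : M) (H : b * e * k = h * d * g) :
    b * g⁻¹ = h * e⁻¹ * (d * k⁻¹) := by
  have h4 : e * k * g * (b * g⁻¹) = e * k * g * (h * e⁻¹ * (d * k⁻¹)) := by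
    calc e * k * g * (b * g⁻¹) = (b * e * k) * (g * g⁻¹) := by
          simp only [mul_comm, mul_left_comm, mul_assoc]
      _ = (h * d * g) * (g * g⁻¹) := by rw [H]
      _ = (h * d * g) * (e * e⁻¹) * (k * k⁻¹) := by
          simp only [mul_inv_cancel, mul_one]
      _ = e * k * g * (h * e⁻¹ * (d * k⁻¹)) := by
          simp only [mul_comm, mul_left_comm, mul_assoc]
  exact mul_left_cancel h4

theorem OMA : OMA_stmt := by
  intro Q _ V hc α hα
  obtain ⟨hco, -⟩ := hα
  have hl : ∀ x ∈ V, ∀ y ∈ V, ∀ z ∈ V, om α (x * y) z = om α x z * om α y z := by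
    intro x hx y hy z hz
    have h1 := hco x hx y hy z hz
    have h2 := hco z hz x hx y hy
    have h3 := hco x hx z hz y hy
    rw [hc z hz x hx] at h2
    rw [hc z hz y hy] at h3
    exact OMA_fin _ _ _ _ _ _ (OMA_grp _ _ _ _ _ _ _ _ _ h1 h2 h3)
  have hs : ∀ x y : Q, om α x y = (om α y x)⁻¹ := by
    intro x y
    unfold om
    rw [mul_inv, inv_inv, mul_comm]
  refine ⟨hl, ?_, ?_⟩
  · intro x hx y hy z hz
    rw [hs x (y * z), hl y hy z hz x hx, mul_inv, ← hs, ← hs]
  · intro x _
    unfold om
    rw [mul_inv_cancel]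

end Pool.Agent.NQ
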